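import Pool.Agent.Helper382_NodO.Norm
import Pool.Agent.Helper382_Nodal.Final

/-! The bad conditions for forms over the ring of integers of a number field. -/

set_option autoImplicit false
set_option linter.unusedSectionVars false

namespace Pool.Agent.Helper382_NodO

open MvPolynomial Pool.Agent.TH214.RM Pool.Agent.H918R2.Quad Pool.Agent.Helper382_Nodal
open scoped NumberField

section

variable {O τ : Type} [CommRing O] [Fintype τ] [DecidableEq τ] (ω : Module.Basis τ ℤ O)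

/-- The coefficients of a form with the given coordinates. -/
noncomputable def cf {n d : ℕ} (x : Mon n d × τ → ℤ) : Mon n d → O := fun m => el ω fun t => x (m, t)

/-- The fibre at `𝔭` has a singular point with degenerate Hessian in the chart `s`. -/
def BadA {n d : ℕ} (s : Fin (n + 2)) (𝔭 : Ideal O) (c : Mon n d → O) : Prop :=
  ∃ Q : Ideal (MvPolynomial {j : Fin (n + 2) // j ≠ s} O), Q.IsPrime ∧
    (∀ r : O, C r ∈ Q ↔ r ∈ 𝔭) ∧ deh s (form c) ∈ Q ∧
    (∀ j, pderiv j (deh s (form c)) ∈ Q) ∧ (hess (deh s (form c))).det ∈ Q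

theorem nod_of_not_badA {n d : ℕ} (𝔭 : Ideal O) (c : Mon n d → O) (h : ∀ s, ¬ BadA s 𝔭 c) :
    Nod 𝔭 (form c) := by
  intro s Q hQ hC hF
  by_contra hcon
  push Not at hcon
  exact h s ⟨Q, hQ, hC, hF, hcon.1, hcon.2⟩

/-- A prime over `p` is bad. -/
def BadO {n d : ℕ} (s : Fin (n + 2)) (p : ℕ) (x : Mon n d × τ → ℤ) : Prop :=
  ∃ 𝔭 : Ideal O, 𝔭.IsPrime ∧ (p : O) ∈ 𝔭 ∧ BadA s 𝔭 (cf ω x)

variable {n : ℕ} (s : Fin (n + 2)) (d : ℕ)

theorem bad_memA (R : MvPolynomial {m : Mon n d // m ≠ m₀ s d} ℤ)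
    (hR : C R ∈ Ideal.span ({(hess (gen s d)).det} ∪ Set.range fun j => pderiv j (gen s d)))
    (𝔭 : Ideal O) (c : Mon n d → O) (h : BadA s 𝔭 c) :
    eval₂ (Int.castRingHom O) (fun i : {m : Mon n d // m ≠ m₀ s d} => c i) R ∈ 𝔭 := by
  obtain ⟨Q, hQ, hC, hF, hj, hd⟩ := h
  let x' : {m : Mon n d // m ≠ m₀ s d} → O := fun i => c i
  let φ : MvPolynomial {m : Mon n d // m ≠ m₀ s d} ℤ →+* O := eval₂Hom (Int.castRingHom O) x'
  have hdeh : deh s (form c) = map φ (gen s d) + C (c (m₀ s d)) :=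
    deh_eq s d φ c fun m => (eval₂Hom_X' (Int.castRingHom O) x' m).symm
  have hle : Ideal.span ({(hess (gen s d)).det} ∪ Set.range fun j => pderiv j (gen s d)) ≤
      Q.comap (map φ) := by
    rw [Ideal.span_le]
    rintro _ (h | ⟨j, rfl⟩)
    · rw [Set.mem_singleton_iff] at h
      rw [h, SetLike.mem_coe, Ideal.mem_comap, ← hess_map]
      rw [hdeh, hess_add_C] at hd
      exact hd
    · rw [SetLike.mem_coe, Ideal.mem_comap, ← pderiv_map]
      have h1 := hj j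
      rw [hdeh, map_add, pderiv_C, add_zero] at h1
      exact h1
  have h1 := hle hR
  rw [Ideal.mem_comap, map_C, hC] at h1
  exact h1

theorem bad_setA (B M₀ : ℕ)
    (hB : ∀ (k : Type) [Field k] (χ : MvPolynomial {m : Mon n d // m ≠ m₀ s d} ℤ →+* k),
      (M₀ : k) ≠ 0 → (∀ a ∈ (⊥ : Ideal (MvPolynomial {m : Mon n d // m ≠ m₀ s d} ℤ)), χ a = 0) →
      ∃ S : Finset k, S.card ≤ B ∧ ∀ v : k,
      Ideal.span ({map χ (gen s d) + C v} ∪ Set.range fun j => pderiv j (map χ (gen s d)) :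
        Set (MvPolynomial {j : Fin (n + 2) // j ≠ s} k)) ≠ ⊤ → v ∈ S)
    (𝔭 : Ideal O) (k : Type) [Field k] (ρ : O →+* k) (hρ : Function.Surjective ρ)
    (hker : ∀ r, ρ r = 0 ↔ r ∈ 𝔭) (hM : (M₀ : k) ≠ 0)
    (c' : {m : Mon n d // m ≠ m₀ s d} → O) :
    ∃ S : Finset k, S.card ≤ B ∧ ∀ c : Mon n d → O, (∀ m : {m : Mon n d // m ≠ m₀ s d}, c m = c' m) →
      BadA s 𝔭 c → ρ (c (m₀ s d)) ∈ S := by
  let φ : MvPolynomial {m : Mon n d // m ≠ m₀ s d} ℤ →+* O := eval₂Hom (Int.castRingHom O) c'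
  let χ : MvPolynomial {m : Mon n d // m ≠ m₀ s d} ℤ →+* k := ρ.comp φ
  obtain ⟨S, hS, hS'⟩ := hB k χ hM (fun a ha => by
    rw [Ideal.mem_bot] at ha
    rw [ha, map_zero])
  refine ⟨S, hS, fun c hc hv => hS' _ ?_⟩
  obtain ⟨Q, hQ, hC, hF, hj, hd⟩ := hv
  let Φ : MvPolynomial {j : Fin (n + 2) // j ≠ s} O →+* MvPolynomial {j : Fin (n + 2) // j ≠ s} k :=
    map ρ
  have hΦ : Function.Surjective Φ := map_surjective ρ hρ
  have hkerΦ : RingHom.ker Φ ≤ Q := by
    change RingHom.ker (map ρ) ≤ Q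
    rw [ker_map, Ideal.map_le_iff_le_comap]
    intro r hr
    rw [Ideal.mem_comap, hC, ← hker]
    exact hr
  have hcomap : (Q.map Φ).comap Φ = Q := by
    rw [Ideal.comap_map_of_surjective Φ hΦ]
    exact sup_eq_left.2 hkerΦ
  have hne : Q.map Φ ≠ ⊤ := by
    intro h
    rw [h, Ideal.comap_top] at hcomap
    exact hQ.ne_top hcomap.symm
  refine fun h => hne (top_unique ?_)
  rw [← h, Ideal.span_le]
  have hdeh : deh s (form c) = map φ (gen s d) + C (c (m₀ s d)) :=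
    deh_eq s d φ c fun m => by
      rw [hc]
      exact (eval₂Hom_X' (Int.castRingHom O) c' m).symm
  rw [hdeh] at hF hj
  rintro _ (h | ⟨j, rfl⟩)
  · rw [Set.mem_singleton_iff] at h
    rw [h, SetLike.mem_coe]
    have h1 := Ideal.mem_map_of_mem Φ hF
    have h2 : Φ (map φ (gen s d) + C (c (m₀ s d))) = map χ (gen s d) + C (ρ (c (m₀ s d))) := by
      change map ρ (map φ (gen s d) + C (c (m₀ s d))) = _
      rw [map_add, map_C, map_map]
    rwa [h2] at h1
  · rw [SetLike.mem_coe]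
    have h1 := Ideal.mem_map_of_mem Φ (hj j)
    have h2 : Φ (pderiv j (map φ (gen s d) + C (c (m₀ s d)))) = pderiv j (map χ (gen s d)) := by
      change map ρ (pderiv j (map φ (gen s d) + C (c (m₀ s d)))) = _
      rw [map_add, pderiv_C, add_zero, ← pderiv_map, map_map]
    rwa [h2] at h1

end

end Pool.Agent.Helper382_NodO
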