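import Pool.Agent.Helper382_NodO.Bad

/-! The bad conditions for forms over the ring of integers of a number field: the sieve applies. -/

set_option autoImplicit false
set_option linter.unusedSectionVars false

namespace Pool.Agent.Helper382_NodO

open MvPolynomial Pool.Agent.TH214.RM Pool.Agent.H918R2.Quad Pool.Agent.Helper382_Nodal
open scoped NumberField

variable {E : Type} [Field E] [NumberField E]

theorem dvd_of_mem (𝔭 : Ideal (𝓞 E)) (h𝔭 : 𝔭.IsPrime) (p : ℕ) (hp : p.Prime)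
    (hmem : (p : 𝓞 E) ∈ 𝔭) (a : ℤ) (ha : (a : 𝓞 E) ∈ 𝔭) : (p : ℤ) ∣ a := by
  by_contra h
  have hc : IsCoprime (p : ℤ) a :=
    (Prime.coprime_iff_not_dvd (Nat.prime_iff_prime_int.1 hp)).2 h
  obtain ⟨u, v, huv⟩ := hc
  refine h𝔭.ne_top ((Ideal.eq_top_iff_one _).2 ?_)
  have h1 : (1 : 𝓞 E) = (u : 𝓞 E) * (p : 𝓞 E) + (v : 𝓞 E) * (a : 𝓞 E) := by
    have h2 := congrArg (Int.cast : ℤ → 𝓞 E) huv
    push_cast at h2
    exact h2.symm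
  rw [h1]
  exact 𝔭.add_mem (𝔭.mul_mem_left _ hmem) (𝔭.mul_mem_left _ ha)

theorem norm_mem (𝔭 : Ideal (𝓞 E)) (α : 𝓞 E) (h : α ∈ 𝔭) :
    ((Algebra.norm ℤ α : ℤ) : 𝓞 E) ∈ 𝔭 := by
  have h1 := Ideal.absNorm_mem (Ideal.span {α})
  rw [Ideal.absNorm_span_singleton] at h1
  have h2 : (((Algebra.norm ℤ α).natAbs : ℕ) : 𝓞 E) ∈ 𝔭 :=
    (Ideal.span_le.2 (Set.singleton_subset_iff.2 h)) h1
  rcases Int.natAbs_eq (Algebra.norm ℤ α) with h3 | h3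
  · rw [h3, Int.cast_natCast]
    exact h2
  · rw [h3, Int.cast_neg, Int.cast_natCast]
    exact 𝔭.neg_mem h2

variable {τ : Type} [Fintype τ] [DecidableEq τ] (ω : Module.Basis τ ℤ (𝓞 E))
  {n : ℕ} (s : Fin (n + 2)) (d : ℕ)

theorem cf_cmb_ne (t₀ : τ) (y : {i : Mon n d × τ // i ≠ (m₀ s d, t₀)} → ℤ) (v : ℤ)
    (m : Mon n d) (hm : m ≠ m₀ s d) :
    cf ω (cmb (m₀ s d, t₀) y v) m = cf ω (cmb (m₀ s d, t₀) y 0) m := by
  unfold cf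
  congr 1
  funext t
  have h1 : ((m, t) : Mon n d × τ) ≠ (m₀ s d, t₀) := fun h => hm (congrArg Prod.fst h)
  rw [cmb_ne (m₀ s d, t₀) y v ⟨(m, t), h1⟩, cmb_ne (m₀ s d, t₀) y 0 ⟨(m, t), h1⟩]

theorem cf_cmb_self (t₀ : τ) (y : {i : Mon n d × τ // i ≠ (m₀ s d, t₀)} → ℤ) (v : ℤ) :
    cf ω (cmb (m₀ s d, t₀) y v) (m₀ s d) =
      (v : 𝓞 E) * ω t₀ + cf ω (cmb (m₀ s d, t₀) y 0) (m₀ s d) := by
  change ∑ t, cmb (m₀ s d, t₀) y v (m₀ s d, t) • ω t =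
    (v : 𝓞 E) * ω t₀ + ∑ t, cmb (m₀ s d, t₀) y 0 (m₀ s d, t) • ω t
  rw [Fintype.sum_eq_add_sum_subtype_ne (fun t => cmb (m₀ s d, t₀) y v (m₀ s d, t) • ω t) t₀,
    Fintype.sum_eq_add_sum_subtype_ne (fun t => cmb (m₀ s d, t₀) y 0 (m₀ s d, t) • ω t) t₀,
    cmb_self, cmb_self, zero_smul, zero_add, zsmul_eq_mul]
  congr 1
  refine Finset.sum_congr rfl fun t _ => ?_
  have h1 : ((m₀ s d, (t : τ)) : Mon n d × τ) ≠ (m₀ s d, t₀) := fun h => t.2 (congrArg Prod.snd h)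
  rw [cmb_ne (m₀ s d, t₀) y v ⟨(m₀ s d, (t : τ)), h1⟩,
    cmb_ne (m₀ s d, t₀) y 0 ⟨(m₀ s d, (t : τ)), h1⟩]

theorem exists_T (B M₀ : ℕ) (hM₀ : M₀ ≠ 0)
    (hB : ∀ (k : Type) [Field k] (χ : MvPolynomial {m : Mon n d // m ≠ m₀ s d} ℤ →+* k),
      (M₀ : k) ≠ 0 → (∀ a ∈ (⊥ : Ideal (MvPolynomial {m : Mon n d // m ≠ m₀ s d} ℤ)), χ a = 0) →
      ∃ S : Finset k, S.card ≤ B ∧ ∀ v : k,
      Ideal.span ({map χ (gen s d) + C v} ∪ Set.range fun j => pderiv j (map χ (gen s d)) :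
        Set (MvPolynomial {j : Fin (n + 2) // j ≠ s} k)) ≠ ⊤ → v ∈ S)
    (p : ℕ) (hp : p.Prime) (hpM : M₀ < p) (t₀ : τ) (y : {i : Mon n d × τ // i ≠ (m₀ s d, t₀)} → ℤ)
    (𝔭 : Ideal (𝓞 E)) (h𝔭 : 𝔭.IsPrime) (hmem : (p : 𝓞 E) ∈ 𝔭) (hω : ω t₀ ∉ 𝔭) :
    ∃ T : Finset (ZMod p), T.card ≤ B ∧
      ∀ v, BadA s 𝔭 (cf ω (cmb (m₀ s d, t₀) y v)) → ((v : ℤ) : ZMod p) ∈ T := by
  classical
  haveI : NeZero p := ⟨hp.ne_zero⟩
  have hne : 𝔭 ≠ ⊥ := by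
    rintro rfl
    rw [Ideal.mem_bot] at hmem
    exact hp.ne_zero (by exact_mod_cast hmem)
  have hmax : 𝔭.IsMaximal := h𝔭.isMaximal hne
  letI : Field (𝓞 E ⧸ 𝔭) := Ideal.Quotient.field 𝔭
  have hM : (M₀ : 𝓞 E ⧸ 𝔭) ≠ 0 := by
    intro h
    have h1 : Ideal.Quotient.mk 𝔭 (M₀ : 𝓞 E) = 0 := by
      rw [map_natCast]
      exact h
    rw [Ideal.Quotient.eq_zero_iff_mem] at h1
    have h2 := dvd_of_mem 𝔭 h𝔭 p hp hmem (M₀ : ℤ) (by exact_mod_cast h1)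
    have h3 := Nat.le_of_dvd (Nat.pos_of_ne_zero hM₀) (by exact_mod_cast h2)
    omega
  obtain ⟨S, hS, hS'⟩ := bad_setA s d B M₀ hB 𝔭 (𝓞 E ⧸ 𝔭) (Ideal.Quotient.mk 𝔭)
    Ideal.Quotient.mk_surjective (fun r => Ideal.Quotient.eq_zero_iff_mem) hM
    (fun m => cf ω (cmb (m₀ s d, t₀) y 0) m)
  set w := cf ω (cmb (m₀ s d, t₀) y 0) (m₀ s d) with hw
  let ι : ZMod p → 𝓞 E ⧸ 𝔭 := fun a => Ideal.Quotient.mk 𝔭 ((a.val : 𝓞 E) * ω t₀ + w)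
  have hι : Function.Injective ι := by
    intro a b hab
    have h1 : Ideal.Quotient.mk 𝔭 ((a.val : 𝓞 E) * ω t₀ + w) =
      Ideal.Quotient.mk 𝔭 ((b.val : 𝓞 E) * ω t₀ + w) := hab
    rw [Ideal.Quotient.eq] at h1
    have h2 : (a.val : 𝓞 E) * ω t₀ + w - ((b.val : 𝓞 E) * ω t₀ + w) =
      (((a.val : ℤ) - (b.val : ℤ) : ℤ) : 𝓞 E) * ω t₀ := by
      push_cast
      ring
    rw [h2] at h1
    have h3 := dvd_of_mem 𝔭 h𝔭 p hp hmem _ ((h𝔭.mem_or_mem h1).resolve_right hω)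
    have h4 := (ZMod.intCast_zmod_eq_zero_iff_dvd ((a.val : ℤ) - (b.val : ℤ)) p).2 h3
    push_cast at h4
    rw [ZMod.natCast_zmod_val, ZMod.natCast_zmod_val] at h4
    exact sub_eq_zero.1 h4
  refine ⟨Finset.univ.filter fun a => ι a ∈ S, ?_, fun v hv => ?_⟩
  · refine le_trans ?_ hS
    refine Finset.card_le_card_of_injOn ι ?_ hι.injOn
    intro a ha
    exact (Finset.mem_filter.1 ha).2
  · rw [Finset.mem_filter]
    refine ⟨Finset.mem_univ _, ?_⟩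
    have h1 := hS' (cf ω (cmb (m₀ s d, t₀) y v)) (fun m => cf_cmb_ne ω s d t₀ y v m m.2) hv
    rw [cf_cmb_self ω s d t₀ y v] at h1
    have h2 : ι ((v : ℤ) : ZMod p) = Ideal.Quotient.mk 𝔭 ((v : 𝓞 E) * ω t₀ + w) := by
      change Ideal.Quotient.mk 𝔭 (((((v : ℤ) : ZMod p)).val : 𝓞 E) * ω t₀ + w) = _
      rw [Ideal.Quotient.eq]
      have h3 : ((((v : ℤ) : ZMod p).val : 𝓞 E) * ω t₀ + w) - ((v : 𝓞 E) * ω t₀ + w) =
        ((((((v : ℤ) : ZMod p).val : ℤ) - v : ℤ)) : 𝓞 E) * ω t₀ := by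
        push_cast
        ring
      rw [h3]
      refine 𝔭.mul_mem_right _ ?_
      have h4 : (p : ℤ) ∣ (((v : ℤ) : ZMod p).val : ℤ) - v := by
        rw [← ZMod.intCast_zmod_eq_zero_iff_dvd]
        push_cast
        rw [ZMod.natCast_zmod_val, sub_self]
      obtain ⟨u, hu⟩ := h4
      rw [hu]
      push_cast
      exact 𝔭.mul_mem_right _ hmem
    rw [h2]
    exact h1

theorem bad_condO (hd : 1 ≤ d) (t₀ : τ) :
    ∃ (R : MvPolynomial {i : Mon n d × τ // i ≠ (m₀ s d, t₀)} ℤ) (B M₀ : ℕ),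
    R ≠ 0 ∧ BadCond (m₀ s d, t₀) R B (BadO ω s) M₀ := by
  classical
  obtain ⟨R, hR0, hR⟩ := exists_hess_poly
    (fun m : {m : Mon n d // m ≠ m₀ s d} => dm s d m)
    (fun k : {j : Fin (n + 2) // j ≠ s} => ⟨m₁ s d hd k, m₁_ne s d hd k⟩) (by
      intro k l h
      have h1 := congrArg Subtype.val h
      exact Subtype.ext (m₁_inj s d hd h1)) (fun k => dm_m₁ s d hd k)
  obtain ⟨B, M₀, hM₀, hB⟩ := crit_bound (gen s d) ⊥
  let e : {m : Mon n d // m ≠ m₀ s d} × τ → {i : Mon n d × τ // i ≠ (m₀ s d, t₀)} :=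
    fun q => ⟨(q.1.1, q.2), fun h => q.1.2 (congrArg Prod.fst h)⟩
  have he : Function.Injective e := by
    intro q q' h
    have h1 : ((q.1.1, q.2) : Mon n d × τ) = (q'.1.1, q'.2) := congrArg Subtype.val h
    exact Prod.ext (Subtype.ext (Prod.mk.inj h1).1) (Prod.mk.inj h1).2
  obtain ⟨R', hR'0, hR'⟩ := norm_poly ω e he R hR0
  have hω0 : ω t₀ ≠ 0 := ω.ne_zero t₀
  have hN0 : Algebra.norm ℤ (ω t₀) ≠ 0 := by
    rw [Ne, Algebra.norm_eq_zero_iff]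
    exact hω0
  refine ⟨R', Module.finrank ℚ E * B, max M₀ (Algebra.norm ℤ (ω t₀)).natAbs, hR'0, ?_, ?_⟩
  · rintro p hp x ⟨𝔭, h𝔭, hmem, hbad⟩
    have h1 := bad_memA s d R hR 𝔭 (cf ω x) hbad
    have h2 := norm_mem 𝔭 _ h1
    have h3 := hR' fun i => x i
    have h4 : (fun j : {m : Mon n d // m ≠ m₀ s d} => el ω fun t => x (e (j, t))) =
      fun i : {m : Mon n d // m ≠ m₀ s d} => cf ω x i := rfl
    rw [h4] at h3
    rw [← h3] at h2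
    exact dvd_of_mem 𝔭 h𝔭 p hp hmem _ h2
  · intro p hp hpM y
    haveI : Fact p.Prime := ⟨hp⟩
    have hp0 : Ideal.span {(p : ℤ)} ≠ ⊥ := by
      rw [Ne, Ideal.span_singleton_eq_bot]
      exact_mod_cast hp.ne_zero
    have hmax : (Ideal.span {(p : ℤ)}).IsMaximal :=
      PrincipalIdealRing.isMaximal_of_irreducible (Nat.prime_iff_prime_int.1 hp).irreducible
    have hT : ∀ 𝔭 : Ideal (𝓞 E), ∃ T : Finset (ZMod p), T.card ≤ B ∧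
        (𝔭.IsPrime → (p : 𝓞 E) ∈ 𝔭 →
          ∀ v, BadA s 𝔭 (cf ω (cmb (m₀ s d, t₀) y v)) → ((v : ℤ) : ZMod p) ∈ T) := by
      intro 𝔭
      by_cases h : 𝔭.IsPrime ∧ (p : 𝓞 E) ∈ 𝔭
      · have hω : ω t₀ ∉ 𝔭 := by
          intro h1
          have h2 := dvd_of_mem 𝔭 h.1 p hp h.2 _ (norm_mem 𝔭 _ h1)
          have h3 := Nat.le_of_dvd (Int.natAbs_pos.2 hN0) (Int.natCast_dvd.1 h2)
          have h4 := le_max_right M₀ (Algebra.norm ℤ (ω t₀)).natAbs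
          omega
        obtain ⟨T, hT, hT'⟩ := exists_T ω s d B M₀ hM₀ hB p hp
          (lt_of_le_of_lt (le_max_left _ _) hpM) t₀ y 𝔭 h.1 h.2 hω
        exact ⟨T, hT, fun _ _ => hT'⟩
      · exact ⟨∅, by simp, fun h1 h2 => absurd ⟨h1, h2⟩ h⟩
    choose T hTc hT' using hT
    refine ⟨(IsDedekindDomain.primesOverFinset (Ideal.span {(p : ℤ)}) (𝓞 E)).biUnion T, ?_, ?_⟩
    · refine Finset.card_biUnion_le.trans ?_
      refine (Finset.sum_le_card_nsmul _ _ B fun 𝔭 _ => hTc 𝔭).trans ?_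
      rw [smul_eq_mul]
      refine Nat.mul_le_mul_right _ ?_
      exact Ideal.card_primesOverFinset_le_finrank (𝓞 E) ℚ E hp0
    · rintro v ⟨𝔭, h𝔭, hmem, hbad⟩
      rw [Finset.mem_biUnion]
      refine ⟨𝔭, ?_, hT' 𝔭 h𝔭 hmem v hbad⟩
      rw [IsDedekindDomain.mem_primesOverFinset_iff hp0]
      refine ⟨h𝔭, ⟨?_⟩⟩
      refine hmax.eq_of_le (Ideal.comap_isPrime _ _).ne_top ?_
      rw [Ideal.span_singleton_le_iff_mem, Ideal.under_def, Ideal.mem_comap]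
      simpa using hmem

end Pool.Agent.Helper382_NodO
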