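import Pool.Agent.Helper382_NodO.FinalO

/-! Models over all Dedekind domains of characteristic zero over the ring of integers. -/

set_option autoImplicit false
set_option linter.unusedSectionVars false
set_option linter.unusedVariables false

namespace Pool.Agent.Helper382_NodO

open MvPolynomial Pool.Agent.TH214.RM Pool.Agent.H918R2.Quad Pool.Agent.Helper382_Nodal
  Pool.Agent.W418 AlgebraicGeometry CategoryTheory CategoryTheory.Limits
open scoped NumberField

variable {E : Type} [Field E] [NumberField E]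

theorem injective_of_charZero {K : Type} [Field K] [CharZero K] (ψ : 𝓞 E →+* K) :
    Function.Injective ψ := by
  rw [RingHom.injective_iff_ker_eq_bot]
  by_contra h
  obtain ⟨p, hp, hpa⟩ := exists_prime_below (RingHom.ker ψ) (RingHom.ker_isPrime ψ) h
  have h1 := (hpa (p : ℤ)).2 (Ideal.mem_span_singleton_self _)
  rw [RingHom.mem_ker, map_intCast] at h1
  have h2 : ((p : ℤ) : K) = ((0 : ℤ) : K) := by rw [h1, Int.cast_zero]
  have h3 := Int.cast_injective h2
  exact hp.ne_zero (by exact_mod_cast h3)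

/-- The generic fibre. -/
theorem nod_bot {n d : ℕ} (F : MvPolynomial (Fin (n + 2)) (𝓞 E)) (hF : F.IsHomogeneous d)
    (hsm : Smooth (map (algebraMap (𝓞 E) E) F)) : Nod ⊥ F := by
  obtain ⟨c₀, hc₀, h⟩ := exists_c0 (K := E) F d hF hsm
  intro s Q hQ hC hFQ
  left
  by_contra hcon
  push Not at hcon
  have h1 : Ideal.span ({deh s F} ∪ Set.range fun l => pderiv l (deh s F)) ≤ Q := by
    rw [Ideal.span_le]
    rintro _ (h | ⟨j, rfl⟩)
    · rw [Set.mem_singleton_iff] at h
      rw [h]
      exact hFQ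
    · exact hcon j
  exact hc₀ (Ideal.mem_bot.1 ((hC c₀).1 (h1 (h s))))

theorem locNod_ded {R K : Type} [CommRing R] [IsDedekindDomain R] [Field K] [CharZero K]
    [Algebra R K] [IsFractionRing R K] (φ : 𝓞 E →+* R) {n d : ℕ}
    (F : MvPolynomial (Fin (n + 2)) (𝓞 E)) (hF : F.IsHomogeneous d)
    (hsm : Smooth (map (algebraMap (𝓞 E) E) F))
    (h : ∀ 𝔭 : Ideal (𝓞 E), 𝔭.IsPrime → 𝔭 ≠ ⊥ → Nod 𝔭 F) :
    LocNod R (map ((algebraMap R K).comp φ) F) := by
  intro 𝔮 hp h0
  classical
  have hpc : (𝔮.comap φ).IsPrime := Ideal.comap_isPrime _ _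
  refine ⟨map φ F, 1, 1, 1, one_ne_zero, one_mul _, ?_, Or.inr ?_⟩
  · rw [C_1, one_mul, MvPolynomial.map_map]
    have h1 : (fun i => ∑ j, C ((1 : Matrix (Fin (n + 2)) (Fin (n + 2)) K) i j) * X j) =
        (X : Fin (n + 2) → MvPolynomial (Fin (n + 2)) K) := by
      funext i
      rw [Finset.sum_eq_single i]
      · rw [Matrix.one_apply_eq, C_1, one_mul]
      · intro j _ hj
        rw [Matrix.one_apply_ne (fun h => hj h.symm), C_0, zero_mul]
      · intro h
        exact absurd (Finset.mem_univ i) h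
    rw [h1, aeval_X_left_apply]
  · by_cases hb : 𝔮.comap φ = ⊥
    · exact nod_map φ ⊥ 𝔮 hb F (nod_bot F hF hsm)
    · exact nod_map φ _ 𝔮 rfl F (h _ hpc hb)

end Pool.Agent.Helper382_NodO
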