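import Pool.Agent.Helper382_NodO.CountO
import Pool.Agent.Helper382_Nodal.Away

/-! The proportion of hypersurfaces over the ring of integers of a number field with at most
nondegenerate singular points modulo all primes, and the models. -/

set_option autoImplicit false
set_option linter.unusedSectionVars false
set_option linter.unusedVariables false

namespace Pool.Agent.Helper382_NodO

open MvPolynomial Pool.Agent.TH214.RM Pool.Agent.H918R2.Quad Finset Pool.Agent.Helper382_Nodal
  Pool.Agent.W418 AlgebraicGeometry CategoryTheory CategoryTheory.Limits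
open scoped NumberField

variable {E : Type} [Field E] [NumberField E]
  {τ : Type} [Fintype τ] [DecidableEq τ] (ω : Module.Basis τ ℤ (𝓞 E))

theorem repr_el (x : τ → ℤ) (t : τ) : ω.repr (el ω x) t = x t := by
  unfold el
  rw [ω.repr_sum_self]

/-- The forms of degree `d` whose coefficients have coordinates of absolute value at most `H`. -/
def FormsO (n d H : ℕ) : Set (MvPolynomial (Fin (n + 2)) (𝓞 E)) :=
  {F | F.IsHomogeneous d ∧ ∀ m t, |ω.repr (F.coeff m) t| ≤ (H : ℤ)}

/-- The form with the given coordinates. -/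
noncomputable def fo {n d : ℕ} (x : Mon n d × τ → ℤ) : MvPolynomial (Fin (n + 2)) (𝓞 E) :=
  form (cf ω x)

theorem fo_injective (n d : ℕ) :
    Function.Injective (fo ω : (Mon n d × τ → ℤ) → MvPolynomial (Fin (n + 2)) (𝓞 E)) := by
  intro x x' h
  funext ⟨m, t⟩
  have h1 : cf ω x m = cf ω x' m := by
    rw [← coeff_form (cf ω x) m, ← coeff_form (cf ω x') m]
    exact congrArg (fun F : MvPolynomial (Fin (n + 2)) (𝓞 E) => F.coeff m.1) h
  have h2 := congrArg (fun a => ω.repr a t) h1
  unfold cf at h2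
  simp only [repr_el] at h2
  exact h2

theorem form_coeffO {n d : ℕ} (F : MvPolynomial (Fin (n + 2)) (𝓞 E)) (hF : F.IsHomogeneous d) :
    form (fun m : Mon n d => F.coeff m.1) = F := by
  ext1 m
  by_cases hm : ∑ i, m i = d
  · exact coeff_form (fun m : Mon n d => F.coeff m.1) (mkMon m hm)
  · have h2 : ∀ G : MvPolynomial (Fin (n + 2)) (𝓞 E), G.IsHomogeneous d → G.coeff m = 0 := by
      intro G hG
      refine hG.coeff_eq_zero ?_
      rw [Finsupp.degree_eq_sum]
      exact hm
    rw [h2 _ (form_homog _), h2 F hF]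

theorem fo_coord {n d : ℕ} (F : MvPolynomial (Fin (n + 2)) (𝓞 E)) (hF : F.IsHomogeneous d) :
    fo ω (fun i : Mon n d × τ => ω.repr (F.coeff i.1.1) i.2) = F := by
  unfold fo
  have h1 : cf ω (fun i : Mon n d × τ => ω.repr (F.coeff i.1.1) i.2) =
      fun m : Mon n d => F.coeff m.1 := by
    funext m
    exact el_repr ω (F.coeff m.1)
  rw [h1, form_coeffO F hF]

theorem image_formO (n d H : ℕ) (P : MvPolynomial (Fin (n + 2)) (𝓞 E) → Prop)
    [DecidablePred fun x : Mon n d × τ → ℤ => P (fo ω x)] :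
    {F | F ∈ FormsO ω n d H ∧ P F} =
      fo ω '' (({x ∈ Fintype.piFinset (fun _ : Mon n d × τ => Icc (-(H : ℤ)) H) | P (fo ω x)} :
        Finset (Mon n d × τ → ℤ)) : Set (Mon n d × τ → ℤ)) := by
  ext F
  constructor
  · rintro ⟨⟨hF, hc⟩, hP⟩
    refine ⟨fun i => ω.repr (F.coeff i.1.1) i.2, ?_, fo_coord ω F hF⟩
    rw [mem_coe, mem_filter, Fintype.mem_piFinset]
    refine ⟨fun m => ?_, ?_⟩
    · rw [mem_Icc, ← abs_le]
      exact hc _ _
    · rw [fo_coord ω F hF]
      exact hP
  · rintro ⟨x, hx, rfl⟩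
    rw [mem_coe, mem_filter, Fintype.mem_piFinset] at hx
    refine ⟨⟨form_homog _, fun m t => ?_⟩, hx.2⟩
    by_cases hm : ∑ i, m i = d
    · have h1 := coeff_form (cf ω x) (mkMon m hm)
      have h2 : (mkMon m hm : Mon n d).1 = m := rfl
      rw [h2] at h1
      unfold fo
      rw [h1]
      unfold cf
      rw [repr_el]
      have h3 := hx.1 (mkMon m hm, t)
      rwa [mem_Icc, ← abs_le] at h3
    · unfold fo
      rw [(form_homog _).coeff_eq_zero (by rw [Finsupp.degree_eq_sum]; exact hm), map_zero,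
        Finsupp.zero_apply, abs_zero]
      positivity

open scoped Classical in
theorem ncard_formsO (n d H : ℕ) (P : MvPolynomial (Fin (n + 2)) (𝓞 E) → Prop) :
    {F | F ∈ FormsO ω n d H ∧ P F}.ncard =
      #{x ∈ Fintype.piFinset (fun _ : Mon n d × τ => Icc (-(H : ℤ)) H) | P (fo ω x)} := by
  rw [image_formO, Set.ncard_image_of_injective _ (fo_injective ω n d), Set.ncard_coe_finset]

theorem card_formsO (n d H : ℕ) :
    (FormsO ω n d H).ncard = (2 * H + 1) ^ Fintype.card (Mon n d × τ) := by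
  classical
  have h1 := ncard_formsO ω n d H (fun _ => True)
  have h2 : {F | F ∈ FormsO ω n d H ∧ True} = FormsO ω n d H := by
    ext F
    simp
  rw [h2] at h1
  have h4 : (FormsO ω n d H).ncard =
      #(Fintype.piFinset (fun _ : Mon n d × τ => Icc (-(H : ℤ)) H)) := by
    rw [h1]
    congr 1
    ext x
    simp only [mem_filter, and_true]
  rw [h4, Fintype.card_piFinset]
  simp only [Int.card_Icc, prod_const, card_univ]
  congr 1
  omega

theorem finite_formsO (n d H : ℕ) : (FormsO ω n d H).Finite := by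
  classical
  have h1 := image_formO ω n d H (fun _ => True)
  have h2 : {F | F ∈ FormsO ω n d H ∧ True} = FormsO ω n d H := by
    ext F
    simp
  rw [h2] at h1
  rw [h1]
  exact (Finset.finite_toSet _).image _

theorem density_formsO (n d : ℕ) (hd : 3 ≤ d) : ∃ c : ℝ, 0 < c ∧ ∃ H₀ : ℕ, ∀ H : ℕ, H₀ ≤ H →
    c * (FormsO ω n d H).ncard ≤
      {F | F ∈ FormsO ω n d H ∧ ((∀ 𝔭 : Ideal (𝓞 E), 𝔭.IsPrime → 𝔭 ≠ ⊥ → Nod 𝔭 F) ∧
        ∀ (K : Type) [Field K] (ψ : 𝓞 E →+* K), Function.Injective ψ →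
          Smooth (map ψ F))}.ncard := by
  classical
  obtain ⟨c, hc, H₀, h⟩ := densityO ω n d hd
  refine ⟨c, hc, H₀, fun H hH => ?_⟩
  have h1 := h H hH
  rw [card_formsO, ncard_formsO]
  push_cast at h1 ⊢
  convert h1 using 3
  ext x
  simp only [mem_filter]
  exact Iff.rfl

/-- Forms with nondegenerate singular points at all primes, over a larger number field. -/
theorem locNod_of_nodO {K : Type} [Field K] [NumberField K] [Algebra E K] {n : ℕ}
    (F : MvPolynomial (Fin (n + 2)) (𝓞 E))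
    (h : ∀ 𝔭 : Ideal (𝓞 E), 𝔭.IsPrime → 𝔭 ≠ ⊥ → Nod 𝔭 F) :
    LocNod (𝓞 K) (map ((algebraMap E K).comp (algebraMap (𝓞 E) E)) F) := by
  intro 𝔮 hp h0
  classical
  have hpc : (𝔮.comap (algebraMap (𝓞 E) (𝓞 K))).IsPrime := Ideal.comap_isPrime _ _
  have hne : 𝔮.comap (algebraMap (𝓞 E) (𝓞 K)) ≠ ⊥ := by
    obtain ⟨x, hx, hx0⟩ := Submodule.exists_mem_ne_zero_of_ne_bot h0
    exact Ideal.comap_ne_bot_of_integral_mem hx0 hx (Algebra.IsIntegral.isIntegral x)
  refine ⟨map (algebraMap (𝓞 E) (𝓞 K)) F, 1, 1, 1, one_ne_zero, one_mul _, ?_, Or.inr ?_⟩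
  · rw [C_1, one_mul, MvPolynomial.map_map]
    have h1 : (fun i => ∑ j, C ((1 : Matrix (Fin (n + 2)) (Fin (n + 2)) K) i j) * X j) =
        (X : Fin (n + 2) → MvPolynomial (Fin (n + 2)) K) := by
      funext i
      rw [Finset.sum_eq_single i]
      · rw [Matrix.one_apply_eq, C_1, one_mul]
      · intro j _ hj
        rw [Matrix.one_apply_ne (fun h => hj h.symm), C_0, zero_mul]
      · intro h
        exact absurd (Finset.mem_univ i) h
    rw [h1, aeval_X_left_apply]
    congr 1
  · exact nod_map (algebraMap (𝓞 E) (𝓞 K)) _ 𝔮 rfl F (h _ hpc hne)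

end Pool.Agent.Helper382_NodO
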