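import Mathlib

/-! Norms of polynomial values: integral polynomials in the coordinates. -/

set_option autoImplicit false

namespace Pool.Agent.Helper382_NodO

open MvPolynomial

variable {O τ : Type} [CommRing O] [Fintype τ] [DecidableEq τ] (ω : Module.Basis τ ℤ O)
  {J I : Type} (e : J × τ → I)

/-- The element with the given coordinates. -/
noncomputable def el (x : τ → ℤ) : O := ∑ t, x t • ω t

theorem el_repr (a : O) : el ω (fun t => ω.repr a t) = a := ω.sum_repr a

theorem coord_exists (R : MvPolynomial J ℤ) : ∃ ρ : τ → MvPolynomial I ℤ, ∀ x : I → ℤ,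
    el ω (fun t => eval x (ρ t)) =
      eval₂ (Int.castRingHom O) (fun j => el ω fun t => x (e (j, t))) R := by
  induction R using MvPolynomial.induction_on with
  | C a =>
    refine ⟨fun t => C (ω.repr (a : O) t), fun x => ?_⟩
    simp only [eval_C, eval₂_C]
    rw [el_repr]
    rfl
  | add p q hp hq =>
    obtain ⟨ρ, hρ⟩ := hp
    obtain ⟨ρ', hρ'⟩ := hq
    refine ⟨fun t => ρ t + ρ' t, fun x => ?_⟩
    rw [eval₂_add, ← hρ, ← hρ']
    unfold el
    rw [← Finset.sum_add_distrib]
    refine Finset.sum_congr rfl fun t _ => ?_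
    simp only [map_add, add_smul]
  | mul_X p j hp =>
    obtain ⟨ρ, hρ⟩ := hp
    refine ⟨fun v => ∑ t, ∑ u, C (ω.repr (ω t * ω u) v) * (ρ t * X (e (j, u))), fun x => ?_⟩
    rw [eval₂_mul, eval₂_X, ← hρ]
    unfold el
    rw [Finset.sum_mul_sum]
    have h1 : ∀ t u, (eval x (ρ t) • ω t) * (x (e (j, u)) • ω u) =
        ∑ v, ((ω.repr (ω t * ω u) v) * (eval x (ρ t) * x (e (j, u)))) • ω v := by
      intro t u
      have h2 := ω.sum_repr (ω t * ω u)
      calc (eval x (ρ t) • ω t) * (x (e (j, u)) • ω u) =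
          (eval x (ρ t) * x (e (j, u))) • (ω t * ω u) := by
            rw [smul_mul_smul_comm]
        _ = (eval x (ρ t) * x (e (j, u))) • ∑ v, ω.repr (ω t * ω u) v • ω v := by rw [h2]
        _ = _ := by
            rw [Finset.smul_sum]
            refine Finset.sum_congr rfl fun v _ => ?_
            rw [smul_smul, mul_comm]
    simp only [h1, map_sum, map_mul, eval_C, eval_X, Finset.sum_smul]
    rw [Finset.sum_comm]
    refine Finset.sum_congr rfl fun t _ => ?_
    rw [Finset.sum_comm]

theorem norm_exists (R : MvPolynomial J ℤ) : ∃ R' : MvPolynomial I ℤ, ∀ x : I → ℤ,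
    eval x R' = Algebra.norm ℤ
      (eval₂ (Int.castRingHom O) (fun j => el ω fun t => x (e (j, t))) R) := by
  obtain ⟨ρ, hρ⟩ := coord_exists ω e R
  let A : τ → Matrix τ τ ℤ := fun t => Algebra.leftMulMatrix ω (ω t)
  let M : Matrix τ τ (MvPolynomial I ℤ) := Matrix.of fun a b => ∑ t, ρ t * C (A t a b)
  refine ⟨M.det, fun x => ?_⟩
  rw [← hρ, Algebra.norm_eq_matrix_det ω, RingHom.map_det]
  congr 1
  unfold el
  rw [map_sum]
  ext a b
  rw [RingHom.mapMatrix_apply, Matrix.map_apply, Matrix.sum_apply]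
  change eval x (∑ t, ρ t * C (A t a b)) = _
  rw [map_sum]
  refine Finset.sum_congr rfl fun t _ => ?_
  rw [map_mul, eval_C, map_zsmul, Matrix.smul_apply, smul_eq_mul]

theorem norm_poly [IsDomain O] (he : Function.Injective e) (R : MvPolynomial J ℤ) (hR : R ≠ 0) :
    ∃ R' : MvPolynomial I ℤ, R' ≠ 0 ∧ ∀ x : I → ℤ,
      eval x R' = Algebra.norm ℤ
        (eval₂ (Int.castRingHom O) (fun j => el ω fun t => x (e (j, t))) R) := by
  classical
  obtain ⟨R', hR'⟩ := norm_exists ω e R
  refine ⟨R', ?_, hR'⟩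
  rintro rfl
  obtain ⟨c, hc⟩ : ∃ c : J → ℤ, eval c R ≠ 0 := by
    by_contra h
    push Not at h
    exact hR (MvPolynomial.funext fun c => by rw [h c, map_zero])
  let x : I → ℤ := fun i => if h : ∃ q, e q = i then c h.choose.1 * ω.repr 1 h.choose.2 else 0
  have hx : ∀ j t, x (e (j, t)) = c j * ω.repr 1 t := by
    intro j t
    have h : ∃ q, e q = e (j, t) := ⟨_, rfl⟩
    have h1 : h.choose = (j, t) := he h.choose_spec
    change (if h : ∃ q, e q = e (j, t) then c h.choose.1 * ω.repr 1 h.choose.2 else 0) = _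
    rw [dif_pos h, h1]
  have h1 := hR' x
  rw [map_zero] at h1
  have h2 : (fun j => el ω fun t => x (e (j, t))) = fun j => ((c j : ℤ) : O) := by
    funext j
    simp only [hx]
    unfold el
    have h3 : ∀ t, (c j * ω.repr 1 t) • ω t = c j • (ω.repr 1 t • ω t) := fun t => mul_smul _ _ _
    simp only [h3]
    rw [← Finset.smul_sum, ω.sum_repr, zsmul_eq_mul, mul_one]
  have h4 : eval₂ (Int.castRingHom O) (fun j => ((c j : ℤ) : O)) R = ((eval c R : ℤ) : O) := by
    change _ = (Int.castRingHom O) (eval₂ (RingHom.id ℤ) c R)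
    rw [eval₂_comp_left, RingHom.comp_id]
    rfl
  rw [h2, h4] at h1
  have h5 : Nonempty τ := by
    by_contra h
    rw [not_nonempty_iff] at h
    have h6 := ω.sum_repr 1
    rw [Finset.univ_eq_empty, Finset.sum_empty] at h6
    exact zero_ne_one h6
  have h6 : Algebra.norm ℤ ((eval c R : ℤ) : O) = (eval c R) ^ Fintype.card τ := by
    have h7 := Algebra.norm_algebraMap_of_basis ω (eval c R)
    exact h7
  rw [h6] at h1
  exact pow_ne_zero _ hc h1.symm

end Pool.Agent.Helper382_NodO
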