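import Pool.Agent.Helper382_NodO.Bad2

/-! Forms over the ring of integers of a number field: the generic fibre and the small primes. -/

set_option autoImplicit false
set_option linter.unusedSectionVars false

namespace Pool.Agent.Helper382_NodO

open MvPolynomial Pool.Agent.TH214.RM Pool.Agent.H918R2.Quad Pool.Agent.Helper382_Nodal
open scoped NumberField

variable {E : Type} [Field E] [NumberField E]
  {τ : Type} [Fintype τ] [DecidableEq τ] (ω : Module.Basis τ ℤ (𝓞 E))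
  {n : ℕ} (s : Fin (n + 2)) (d : ℕ)

theorem smooth_condO (hd : 1 ≤ d) : ∃ R : MvPolynomial (Mon n d × τ) ℤ, R ≠ 0 ∧
    ∀ (x : Mon n d × τ → ℤ), eval x R ≠ 0 → ∀ (K : Type) [Field K] (ψ : 𝓞 E →+* K),
      Function.Injective ψ →
      X s ∈ (Ideal.span (Set.range fun j => pderiv j (map ψ (form (cf ω x))))).radical := by
  obtain ⟨R, hR0, k, hR⟩ := exists_smooth_poly (fun m : Mon n d => monomial m.1 (1 : ℤ)) d hd
    (fun m => isHomogeneous_monomial _ (by
      rw [Finsupp.degree_eq_sum]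
      exact degree_mon m)) s (m₀ s d) (X_pow_eq_monomial).symm
  obtain ⟨R', hR'0, hR'⟩ := norm_poly ω (fun q : Mon n d × τ => q) (fun _ _ h => h) R hR0
  refine ⟨R', hR'0, fun x hx K _ ψ hψ => ⟨k, ?_⟩⟩
  rw [← form_lin] at hR
  let φ₀ : MvPolynomial (Mon n d) ℤ →+* 𝓞 E := eval₂Hom (Int.castRingHom (𝓞 E)) (cf ω x)
  let φ : MvPolynomial (Mon n d) ℤ →+* K := ψ.comp φ₀
  have h1 := Ideal.mem_map_of_mem (map φ) hR
  rw [Ideal.map_span, ← Set.range_comp, map_mul, map_C, map_pow, map_X] at h1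
  have h2 : (⇑(map φ) ∘ fun j => pderiv j (form (X : Mon n d → MvPolynomial (Mon n d) ℤ))) =
      fun j => pderiv j (map ψ (form (cf ω x))) := by
    funext j
    simp only [Function.comp]
    rw [← pderiv_map, form_map, form_map]
    congr 2
    funext m
    change ψ (eval₂Hom (Int.castRingHom (𝓞 E)) (cf ω x) (X m)) = _
    rw [eval₂Hom_X']
  rw [h2] at h1
  have h3 : φ R ≠ 0 := by
    intro h
    have h4 : φ₀ R = 0 := by
      apply hψ
      rw [map_zero]
      exact h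
    apply hx
    rw [hR']
    have h5 : eval₂ (Int.castRingHom (𝓞 E)) (fun j : Mon n d => el ω fun t => x (j, t)) R = φ₀ R :=
      rfl
    rw [h5, h4, Algebra.norm_eq_zero_iff]
  have h4 : X s ^ k = C (φ R)⁻¹ * (C (φ R) * X s ^ k : MvPolynomial (Fin (n + 2)) K) := by
    rw [← mul_assoc, ← C_mul, inv_mul_cancel₀ h3, C_1, one_mul]
  rw [h4]
  exact Ideal.mul_mem_left _ _ h1

variable {d}

/-- A form congruent to a form which is smooth modulo `p` has no singular points over `p`. -/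
theorem nodO_of_congr (p : ℕ) (T : MvPolynomial (Fin (n + 2)) ℤ)
    (hT : T.IsHomogeneous d) (hsm : SmP p T) (c : Mon n d → 𝓞 E)
    (hc : ∀ m : Mon n d, (p : 𝓞 E) ∣ c m - ((T.coeff m.1 : ℤ) : 𝓞 E))
    (𝔭 : Ideal (𝓞 E)) (h𝔭 : ∀ a : ℤ, (a : 𝓞 E) ∈ 𝔭 ↔ a ∈ Ideal.span {(p : ℤ)}) :
    Nod 𝔭 (form c) := by
  intro s Q hQ hC hF
  left
  by_contra hcon
  push Not at hcon
  let θ : MvPolynomial (Fin (n + 2)) (𝓞 E) →+* MvPolynomial {j : Fin (n + 2) // j ≠ s} (𝓞 E) :=
    ((aeval (tau s) : MvPolynomial (Fin (n + 2)) (𝓞 E) →ₐ[𝓞 E]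
        MvPolynomial {j : Fin (n + 2) // j ≠ s} (𝓞 E)) : _ →+* _)
  have hθ : ∀ G, θ G = deh s G := fun G => rfl
  have hθC : ∀ r : 𝓞 E, θ (C r) = C r := by
    intro r
    rw [hθ]
    unfold deh
    rw [aeval_C]
    rfl
  have hPC : ∀ r : 𝓞 E, C r ∈ Q.comap θ ↔ r ∈ 𝔭 := by
    intro r
    rw [Ideal.mem_comap, hθC, hC]
  have hall : ∀ j, pderiv j (form c) ∈ Q.comap θ := fun j =>
    all_pderiv_mem (form c) d (form_homog c) s Q hF hcon j
  have hp : (C (p : 𝓞 E) : MvPolynomial (Fin (n + 2)) (𝓞 E)) ∈ Q.comap θ := by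
    rw [hPC]
    have h1 := (h𝔭 (p : ℤ)).2 (Ideal.mem_span_singleton_self _)
    exact_mod_cast h1
  choose e he using hc
  have hdiff : form c = map (Int.castRingHom (𝓞 E)) T + C (p : 𝓞 E) * form e := by
    rw [← form_coeff T hT, form_map]
    ext m
    rw [coeff_add, coeff_C_mul]
    by_cases hm : ∑ i, m i = d
    · have h1 := coeff_form c (mkMon m hm)
      have h2 := coeff_form (fun m : Mon n d => Int.castRingHom (𝓞 E) (T.coeff m.1)) (mkMon m hm)
      have h3 := coeff_form e (mkMon m hm)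
      have h4 : (mkMon m hm : Mon n d).1 = m := rfl
      rw [h4] at h1 h2 h3
      rw [h1, h2, h3, ← he, h4]
      simp
    · have h2 : ∀ G : MvPolynomial (Fin (n + 2)) (𝓞 E), G.IsHomogeneous d → G.coeff m = 0 := by
        intro G hG
        refine hG.coeff_eq_zero ?_
        rw [Finsupp.degree_eq_sum]
        exact hm
      rw [h2 _ (form_homog _), h2 _ (form_homog _), h2 _ (form_homog _)]
      ring
  have hTP : map (Int.castRingHom (𝓞 E)) T ∈ Q.comap θ := by
    have h1 : form c ∈ Q.comap θ := hF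
    rw [hdiff] at h1
    exact (Submodule.add_mem_iff_left _ ((Q.comap θ).mul_mem_right _ hp)).1 h1
  have hTj : ∀ j, pderiv j (map (Int.castRingHom (𝓞 E)) T) ∈ Q.comap θ := by
    intro j
    have h1 := hall j
    rw [hdiff, map_add, pderiv_C_mul] at h1
    exact (Submodule.add_mem_iff_left _ ((Q.comap θ).mul_mem_right _ hp)).1 h1
  have hprime : ((Q.comap θ).comap (map (Int.castRingHom (𝓞 E)))).IsPrime :=
    Ideal.comap_isPrime _ _
  have h1 := hsm ((Q.comap θ).comap (map (Int.castRingHom (𝓞 E)))) hprime (fun r => by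
      rw [Ideal.mem_comap, map_C, hPC]
      exact h𝔭 r) hTP (fun j => by
      rw [Ideal.mem_comap, ← pderiv_map]
      exact hTj j) s
  rw [Ideal.mem_comap, map_X, Ideal.mem_comap, hθ] at h1
  have h2 : deh s (X s : MvPolynomial (Fin (n + 2)) (𝓞 E)) = 1 := by
    unfold deh
    rw [aeval_X]
    unfold tau
    rw [dif_pos rfl]
  rw [h2] at h1
  exact (Ideal.ne_top_iff_one Q).1 hQ.ne_top h1

/-- The residue class of the coordinates. -/
theorem cf_congr (p : ℕ) (T : Mon n d → ℤ) (x : Mon n d × τ → ℤ)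
    (hx : ∀ i : Mon n d × τ, (p : ℤ) ∣ x i - T i.1 * ω.repr 1 i.2) (m : Mon n d) :
    (p : 𝓞 E) ∣ cf ω x m - ((T m : ℤ) : 𝓞 E) := by
  choose u hu using hx
  refine ⟨∑ t, u (m, t) • ω t, ?_⟩
  have h1 : ((T m : ℤ) : 𝓞 E) = ∑ t, (T m * ω.repr 1 t) • ω t := by
    have h2 := ω.sum_repr 1
    calc ((T m : ℤ) : 𝓞 E) = T m • (1 : 𝓞 E) := by rw [zsmul_eq_mul, mul_one]
      _ = T m • ∑ t, ω.repr 1 t • ω t := by rw [h2]
      _ = _ := by
        rw [Finset.smul_sum]
        exact Finset.sum_congr rfl fun t _ => (mul_smul _ _ _).symm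
  rw [h1]
  unfold cf el
  rw [← Finset.sum_sub_distrib, Finset.mul_sum]
  refine Finset.sum_congr rfl fun t _ => ?_
  rw [← sub_smul]
  have h3 := hu (m, t)
  simp only at h3
  rw [h3, mul_smul, zsmul_eq_mul, Int.cast_natCast]

end Pool.Agent.Helper382_NodO
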